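import Pool.Agent.EWG.StmtsC

/-! Row PPW of squad EWG. -/

namespace Pool.Agent.EWG.H82

open Pool.Agent.EWG Finset
open scoped ArithmeticFunction

/-- von Mangoldt without the primes -/
noncomputable def a (d : ℕ) : ℝ := if d.Prime then 0 else (ArithmeticFunction.vonMangoldt d : ℝ)

theorem a_nonneg (d : ℕ) : 0 ≤ a d := by
  unfold a
  split_ifs
  · exact le_refl _
  · exact ArithmeticFunction.vonMangoldt_nonneg

theorem a_one : a 1 = 0 := by
  unfold a
  rw [if_neg Nat.not_prime_one, ArithmeticFunction.vonMangoldt_apply_one]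

theorem sum_a (n : ℕ) : ∑ d ∈ Ioc 0 n, a d = Chebyshev.psi n - Chebyshev.theta n := by
  unfold Chebyshev.psi Chebyshev.theta
  rw [Nat.floor_natCast, Finset.sum_filter, ← Finset.sum_sub_distrib]
  refine Finset.sum_congr rfl fun d _ => ?_
  unfold a
  by_cases h : d.Prime
  · rw [if_pos h, if_pos h, ArithmeticFunction.vonMangoldt_apply_prime h, sub_self]
  · rw [if_neg h, if_neg h, sub_zero]

/-- the weight -/
noncomputable def w (d : ℕ) : ℝ := (d : ℝ) ^ (-(3 / 4 : ℝ))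

theorem w_nonneg (d : ℕ) : 0 ≤ w d := Real.rpow_nonneg (Nat.cast_nonneg _) _

theorem w_anti (d : ℕ) (hd : 1 ≤ d) : w (d + 1) ≤ w d := by
  unfold w
  apply Real.rpow_le_rpow_of_nonpos
  · exact_mod_cast hd
  · push_cast; linarith
  · norm_num

theorem sum_aw {C : ℝ} (hC : 0 ≤ C) (hB : ∀ n : ℕ, ∑ d ∈ Ioc 0 n, a d ≤ C * Real.sqrt n) (n : ℕ) :
    (∑ d ∈ Ioc 0 n, a d * w d) - w n * ∑ d ∈ Ioc 0 n, a d ≤
      C * ((∑ d ∈ Ioc 0 n, (Real.sqrt d - Real.sqrt ((d : ℝ) - 1)) * w d) - w n * Real.sqrt n) := by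
  induction n with
  | zero => simp
  | succ n ih =>
    rw [Finset.sum_Ioc_succ_top (Nat.zero_le n), Finset.sum_Ioc_succ_top (Nat.zero_le n),
      Finset.sum_Ioc_succ_top (Nat.zero_le n)]
    have h1 : (w n - w (n + 1)) * ∑ d ∈ Ioc 0 n, a d ≤
        (w n - w (n + 1)) * (C * Real.sqrt n) := by
      rcases Nat.eq_zero_or_pos n with h | h
      · subst h; simp
      · exact mul_le_mul_of_nonneg_left (hB n) (sub_nonneg.mpr (w_anti n h))
    have h2 : (((n + 1 : ℕ) : ℝ) - 1) = n := by push_cast; ring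
    rw [h2]
    set S := ∑ d ∈ Ioc 0 n, a d * w d
    set B := ∑ d ∈ Ioc 0 n, a d
    set R := ∑ d ∈ Ioc 0 n, (Real.sqrt d - Real.sqrt ((d : ℝ) - 1)) * w d
    nlinarith [h1, ih]

theorem sqrt_diff (d : ℕ) (hd : 1 ≤ d) :
    (Real.sqrt d - Real.sqrt ((d : ℝ) - 1)) * w d ≤ (d : ℝ) ^ (-(5 / 4 : ℝ)) := by
  have hd' : (1 : ℝ) ≤ d := by exact_mod_cast hd
  have hd0 : (0 : ℝ) < d := by linarith
  have h1 : Real.sqrt d - Real.sqrt ((d : ℝ) - 1) ≤ (d : ℝ) ^ (-(1 / 2 : ℝ)) := by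
    have h2 : 0 < Real.sqrt d := Real.sqrt_pos.mpr hd0
    have h3 : (d : ℝ) ^ (-(1 / 2 : ℝ)) = 1 / Real.sqrt d := by
      rw [Real.rpow_neg hd0.le, Real.sqrt_eq_rpow, one_div, one_div]
    rw [h3, le_div_iff₀ h2, sub_mul, Real.mul_self_sqrt hd0.le]
    have h4 : Real.sqrt ((d : ℝ) - 1) * Real.sqrt ((d : ℝ) - 1) ≤
        Real.sqrt ((d : ℝ) - 1) * Real.sqrt d :=
      mul_le_mul_of_nonneg_left (Real.sqrt_le_sqrt (by linarith)) (Real.sqrt_nonneg _)
    rw [Real.mul_self_sqrt (by linarith)] at h4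
    linarith
  calc (Real.sqrt d - Real.sqrt ((d : ℝ) - 1)) * w d ≤ (d : ℝ) ^ (-(1 / 2 : ℝ)) * w d :=
        mul_le_mul_of_nonneg_right h1 (w_nonneg d)
    _ = (d : ℝ) ^ (-(5 / 4 : ℝ)) := by
        unfold w
        rw [← Real.rpow_add hd0]
        norm_num

theorem exists_W : ∃ W : ℝ, 0 < W ∧ ∀ n : ℕ, ∑ d ∈ Ioc 0 n, a d * w d ≤ W := by
  obtain ⟨C0, hC0⟩ := Chebyshev.psi_sub_theta_le_mul_sqrt
  set C := max C0 0 with hCdef
  have hC : 0 ≤ C := le_max_right _ _
  have hB : ∀ n : ℕ, ∑ d ∈ Ioc 0 n, a d ≤ C * Real.sqrt n := by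
    intro n
    rw [sum_a]
    exact (hC0 n).trans (mul_le_mul_of_nonneg_right (le_max_left _ _) (Real.sqrt_nonneg _))
  have hs : Summable fun d : ℕ => (d : ℝ) ^ (-(5 / 4 : ℝ)) := by
    rw [Real.summable_nat_rpow]
    norm_num
  set T := ∑' d : ℕ, (d : ℝ) ^ (-(5 / 4 : ℝ))
  have hT0 : 0 ≤ T := tsum_nonneg fun d => Real.rpow_nonneg (Nat.cast_nonneg _) _
  refine ⟨C * T + C + 1, by positivity, fun n => ?_⟩
  have h1 := sum_aw hC hB n
  have h2 : ∑ d ∈ Ioc 0 n, (Real.sqrt d - Real.sqrt ((d : ℝ) - 1)) * w d ≤ T := by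
    calc ∑ d ∈ Ioc 0 n, (Real.sqrt d - Real.sqrt ((d : ℝ) - 1)) * w d
        ≤ ∑ d ∈ Ioc 0 n, (d : ℝ) ^ (-(5 / 4 : ℝ)) :=
          Finset.sum_le_sum fun d hd => sqrt_diff d (Finset.mem_Ioc.mp hd).1
      _ ≤ T := hs.sum_le_tsum _ fun d _ => Real.rpow_nonneg (Nat.cast_nonneg _) _
  have h3 : w n * ∑ d ∈ Ioc 0 n, a d ≤ w n * (C * Real.sqrt n) :=
    mul_le_mul_of_nonneg_left (hB n) (w_nonneg n)
  nlinarith [h1, h2, h3, mul_le_mul_of_nonneg_left h2 hC]

theorem bracket (n : ℕ) (hn : 1 ≤ n) :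
    Real.log n - ∑ l ∈ n.primeFactors, Real.log l = ∑ d ∈ n.divisors, a d := by
  have h1 : ∑ d ∈ n.divisors, (ArithmeticFunction.vonMangoldt d : ℝ) = Real.log n :=
    ArithmeticFunction.vonMangoldt_sum
  have h2 : ∑ l ∈ n.primeFactors, Real.log l =
      ∑ d ∈ n.divisors, (if d.Prime then (ArithmeticFunction.vonMangoldt d : ℝ) else 0) := by
    rw [← Finset.sum_filter]
    have : n.divisors.filter Nat.Prime = n.primeFactors := by
      ext l
      simp only [Finset.mem_filter, Nat.mem_divisors, Nat.mem_primeFactors]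
      constructor
      · rintro ⟨⟨h3, h4⟩, h5⟩; exact ⟨h5, h3, h4⟩
      · rintro ⟨h5, h3, h4⟩; exact ⟨⟨h3, h4⟩, h5⟩
    rw [this]
    refine Finset.sum_congr rfl fun l hl => ?_
    rw [ArithmeticFunction.vonMangoldt_apply_prime (Nat.prime_of_mem_primeFactors hl)]
  rw [h2, ← h1, ← Finset.sum_sub_distrib]
  refine Finset.sum_congr rfl fun d _ => ?_
  unfold a
  split_ifs <;> ring

theorem Th_triv (x d : ℕ) (hx : 1 ≤ x) (hd : 2 ≤ d) :
    Th x d ≤ (x : ℝ) / d * Real.log x := by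
  unfold Th
  have hx' : (1 : ℝ) ≤ x := by exact_mod_cast hx
  have h1 : ∑ p ∈ (Icc 1 x).filter (fun p => p.Prime ∧ p % d = 1 % d), Real.log p ≤
      ∑ _p ∈ (Icc 1 x).filter (fun p => p.Prime ∧ p % d = 1 % d), Real.log x := by
    refine Finset.sum_le_sum fun p hp => ?_
    have h2 := Finset.mem_filter.mp hp
    have h3 := Finset.mem_Icc.mp h2.1
    exact Real.log_le_log (by exact_mod_cast h3.1) (by exact_mod_cast h3.2)
  rw [Finset.sum_const, nsmul_eq_mul] at h1
  refine h1.trans (mul_le_mul_of_nonneg_right ?_ (Real.log_nonneg hx'))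
  have h4 : ((Icc 1 x).filter (fun p => p.Prime ∧ p % d = 1 % d)).card ≤ x / d := by
    calc ((Icc 1 x).filter (fun p => p.Prime ∧ p % d = 1 % d)).card
        ≤ (Ioc 0 (x / d)).card := by
          refine Finset.card_le_card_of_injOn (fun p => p / d) ?_ ?_
          · intro p hp
            have h5 := Finset.mem_filter.mp (Finset.mem_coe.mp hp)
            have h6 := Finset.mem_Icc.mp h5.1
            have h7 : 1 % d = 1 := Nat.mod_eq_of_lt hd
            rw [h7] at h5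
            refine Finset.mem_coe.mpr (Finset.mem_Ioc.mpr ⟨?_, Nat.div_le_div_right h6.2⟩)
            refine Nat.pos_of_ne_zero fun h8 => ?_
            have h9 := Nat.div_add_mod p d
            have h8' : p / d = 0 := h8
            rw [h8', h5.2.2] at h9
            have := h5.2.1.two_le
            omega
          · intro p hp q hq hpq
            have h5 := (Finset.mem_filter.mp (Finset.mem_coe.mp hp)).2.2
            have h6 := (Finset.mem_filter.mp (Finset.mem_coe.mp hq)).2.2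
            have h7 : p / d = q / d := hpq
            have h8 := Nat.div_add_mod p d
            have h9 := Nat.div_add_mod q d
            rw [h5, h7] at h8
            rw [h6] at h9
            omega
      _ = x / d := by simp
  calc (((Icc 1 x).filter (fun p => p.Prime ∧ p % d = 1 % d)).card : ℝ) ≤ ((x / d : ℕ) : ℝ) := by
        exact_mod_cast h4
    _ ≤ (x : ℝ) / d := Nat.cast_div_le

theorem totient_pp {d : ℕ} (hd : IsPrimePow d) : (d : ℝ) / 2 ≤ Nat.totient d := by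
  obtain ⟨p, k, hp, hk, rfl⟩ := hd
  have hp' := hp.nat_prime
  rw [Nat.totient_prime_pow hp' hk]
  have h1 : p ^ k = p ^ (k - 1) * p := by
    rw [← pow_succ, Nat.sub_add_cancel hk]
  have h2 : p ≤ 2 * (p - 1) := by have := hp'.two_le; omega
  have h3 : p ^ k ≤ 2 * (p ^ (k - 1) * (p - 1)) := by
    rw [h1]
    calc p ^ (k - 1) * p ≤ p ^ (k - 1) * (2 * (p - 1)) := Nat.mul_le_mul_left _ h2
      _ = 2 * (p ^ (k - 1) * (p - 1)) := by ring
  have h4 : ((p ^ k : ℕ) : ℝ) ≤ ((2 * (p ^ (k - 1) * (p - 1)) : ℕ) : ℝ) := by exact_mod_cast h3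
  rw [Nat.cast_mul 2] at h4
  have : ((2 : ℕ) : ℝ) = 2 := by norm_num
  rw [this] at h4
  linarith

theorem one_term {C : ℝ} (hC : 0 < C) (hBT : ∀ x q : ℕ, 1 ≤ x → 0 < q → q ^ 5 ≤ x ^ 3 →
    Th x q ≤ C * x / (Nat.totient q : ℝ)) (x d : ℕ) (hx : 1 ≤ x) (hd : 1 ≤ d) :
    a d * Th x d ≤ (2 * C + 20 / 3) * x * (a d * w d) := by
  have hx' : (1 : ℝ) ≤ x := by exact_mod_cast hx
  have hx0 : (0 : ℝ) < x := by linarith
  have hd' : (1 : ℝ) ≤ d := by exact_mod_cast hd
  have hd0 : (0 : ℝ) < d := by linarith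
  by_cases ha : a d = 0
  · rw [ha]; simp
  have hnp : ¬ d.Prime := by
    intro h
    exact ha (by unfold a; rw [if_pos h])
  have hpp : IsPrimePow d := by
    by_contra h
    apply ha
    unfold a
    rw [if_neg hnp]
    rw [ArithmeticFunction.vonMangoldt_eq_zero_iff]
    exact h
  have hd2 : 2 ≤ d := hpp.one_lt
  have hw : 1 / (d : ℝ) ≤ w d := by
    unfold w
    rw [one_div, ← Real.rpow_neg_one]
    exact Real.rpow_le_rpow_of_exponent_le hd' (by norm_num)
  have hw0 := w_nonneg d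
  have ha0 := a_nonneg d
  by_cases h5 : d ^ 5 ≤ x ^ 3
  · have h1 := hBT x d hx hd h5
    have h2 := totient_pp hpp
    have h3 : C * x / (Nat.totient d : ℝ) ≤ C * x / ((d : ℝ) / 2) :=
      div_le_div_of_nonneg_left (by positivity) (by positivity) h2
    have h4 : C * x / ((d : ℝ) / 2) = 2 * C * x * (1 / d) := by
      field_simp
    have h6 : Th x d ≤ 2 * C * x * w d := by
      calc Th x d ≤ 2 * C * x * (1 / d) := by rw [← h4]; exact h1.trans h3
        _ ≤ 2 * C * x * w d := mul_le_mul_of_nonneg_left hw (by positivity)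
    calc a d * Th x d ≤ a d * (2 * C * x * w d) := mul_le_mul_of_nonneg_left h6 ha0
      _ ≤ (2 * C + 20 / 3) * x * (a d * w d) := by
        have : 0 ≤ 20 / 3 * x * (a d * w d) := by positivity
        nlinarith [this]
  · push Not at h5
    have h1 := Th_triv x d hx hd2
    have h2 : Real.log x ≤ (x : ℝ) ^ (3 / 20 : ℝ) / (3 / 20) :=
      Real.log_le_rpow_div hx0.le (by norm_num)
    have h3 : (x : ℝ) ^ (3 / 20 : ℝ) ≤ (d : ℝ) ^ (1 / 4 : ℝ) := by
      have h5' : ((x : ℝ)) ^ 3 ≤ (d : ℝ) ^ 5 := by exact_mod_cast h5.le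
      have e1 : (x : ℝ) ^ (3 / 20 : ℝ) = (((x : ℝ)) ^ 3) ^ (1 / 20 : ℝ) := by
        rw [← Real.rpow_natCast, ← Real.rpow_mul hx0.le]
        norm_num
      have e2 : (d : ℝ) ^ (1 / 4 : ℝ) = (((d : ℝ)) ^ 5) ^ (1 / 20 : ℝ) := by
        rw [← Real.rpow_natCast, ← Real.rpow_mul hd0.le]
        norm_num
      rw [e1, e2]
      exact Real.rpow_le_rpow (by positivity) h5' (by norm_num)
    have h4 : 1 / (d : ℝ) * (d : ℝ) ^ (1 / 4 : ℝ) = w d := by
      unfold w
      rw [one_div, ← Real.rpow_neg_one, ← Real.rpow_add hd0]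
      norm_num
    have h6 : Th x d ≤ 20 / 3 * x * w d := by
      calc Th x d ≤ (x : ℝ) / d * Real.log x := h1
        _ ≤ (x : ℝ) / d * (20 / 3 * (d : ℝ) ^ (1 / 4 : ℝ)) := by
          apply mul_le_mul_of_nonneg_left _ (by positivity)
          have : (x : ℝ) ^ (3 / 20 : ℝ) / (3 / 20) = 20 / 3 * (x : ℝ) ^ (3 / 20 : ℝ) := by ring
          rw [this] at h2
          linarith [h2, h3]
        _ = 20 / 3 * x * w d := by rw [← h4]; ring
    calc a d * Th x d ≤ a d * (20 / 3 * x * w d) := mul_le_mul_of_nonneg_left h6 ha0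
      _ ≤ (2 * C + 20 / 3) * x * (a d * w d) := by
        have : 0 ≤ 2 * C * x * (a d * w d) := by positivity
        nlinarith [this]

theorem ppw (h1 : Bt2Stmt) : PpwStmt := by
  obtain ⟨C, hC, hBT⟩ := h1
  obtain ⟨W, hW, hW'⟩ := exists_W
  refine ⟨(2 * C + 20 / 3) * W, by positivity, fun x hx => ?_⟩
  have hstep : ∑ p ∈ pr (Icc 3 x), Real.log p * (Real.log ((p : ℝ) - 1) -
      ∑ l ∈ (p - 1).primeFactors, Real.log l) ≤ ∑ d ∈ Ioc 0 x, a d * Th x d := by
    have e1 : ∀ p ∈ pr (Icc 3 x), Real.log p * (Real.log ((p : ℝ) - 1) -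
        ∑ l ∈ (p - 1).primeFactors, Real.log l) =
        ∑ d ∈ Ioc 0 x, (if d ∣ p - 1 then a d * Real.log p else 0) := by
      intro p hp
      have h2 := Finset.mem_Icc.mp (mem_pr.mp hp).1
      have h3 : ((p : ℝ) - 1) = ((p - 1 : ℕ) : ℝ) := by
        rw [Nat.cast_sub (by omega)]; simp
      rw [h3, bracket (p - 1) (by omega), Finset.mul_sum, ← Finset.sum_filter]
      have h4 : (Ioc 0 x).filter (fun d => d ∣ p - 1) = (p - 1).divisors := by
        ext d
        simp only [Finset.mem_filter, Finset.mem_Ioc, Nat.mem_divisors]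
        constructor
        · rintro ⟨_, h5⟩; exact ⟨h5, by omega⟩
        · rintro ⟨h5, h6⟩
          have h7 := Nat.le_of_dvd (by omega) h5
          exact ⟨⟨Nat.pos_of_dvd_of_pos h5 (by omega), by omega⟩, h5⟩
      rw [h4]
      exact Finset.sum_congr rfl fun d _ => mul_comm _ _
    rw [Finset.sum_congr rfl e1, Finset.sum_comm]
    refine Finset.sum_le_sum fun d hd => ?_
    have hd1 := (Finset.mem_Ioc.mp hd).1
    by_cases hd2 : d = 1
    · subst hd2
      rw [a_one]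
      simp
    · have hd3 : 2 ≤ d := by omega
      rw [← Finset.sum_filter, ← Finset.mul_sum]
      refine mul_le_mul_of_nonneg_left ?_ (a_nonneg d)
      unfold Th
      refine Finset.sum_le_sum_of_subset_of_nonneg ?_ ?_
      · intro p hp
        have h2 := Finset.mem_filter.mp hp
        have h3 := mem_pr.mp h2.1
        have h4 := Finset.mem_Icc.mp h3.1
        refine Finset.mem_filter.mpr ⟨Finset.mem_Icc.mpr ⟨by omega, h4.2⟩, h3.2, ?_⟩
        obtain ⟨c, hc⟩ := h2.2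
        have : p = 1 + d * c := by omega
        rw [this, Nat.add_mul_mod_self_left]
      · intro p hp _
        have h3 := Finset.mem_Icc.mp (Finset.mem_filter.mp hp).1
        exact Real.log_nonneg (by exact_mod_cast h3.1)
  calc ∑ p ∈ pr (Icc 3 x), Real.log p * (Real.log ((p : ℝ) - 1) -
      ∑ l ∈ (p - 1).primeFactors, Real.log l) ≤ ∑ d ∈ Ioc 0 x, a d * Th x d := hstep
    _ ≤ ∑ d ∈ Ioc 0 x, (2 * C + 20 / 3) * x * (a d * w d) :=
        Finset.sum_le_sum fun d hd => one_term hC hBT x d hx (Finset.mem_Ioc.mp hd).1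
    _ = (2 * C + 20 / 3) * x * ∑ d ∈ Ioc 0 x, a d * w d := by rw [Finset.mul_sum]
    _ ≤ (2 * C + 20 / 3) * x * W := mul_le_mul_of_nonneg_left (hW' x) (by positivity)
    _ = (2 * C + 20 / 3) * W * x := by ring

end Pool.Agent.EWG.H82
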